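import Mathlib
import Pool.Agent.H350R3.MF.Final

/-!
# Hilbert functions of `r` general fat points of multiplicity `m` for `r ≤ c * n ^ (d - m + 1 - ε)`

By apolarity, a form `F` of degree `d` vanishes to order `m` at the point `P` iff it is killed by
the `e`-th power of the derivative in the direction `P`, where `e = d - m + 1`. We specialise the
points to indicator vectors of the blocks of a locally sparse partial design on the set of the
coordinates, and show that in degrees at most `d` the operators obtained in this way, together with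
the squares of the partial derivatives, behave like a regular sequence. The needed lifts are
constructed locally, with the help of few fresh coordinates of a block. The block systems come from
a random deletion argument.
-/

set_option autoImplicit false

namespace Pool.Agent.Results.MP_b56c98_ag.SparseRange

open MvPolynomial
open scoped LinearAlgebra.Projectivization

/-- The homogeneous prime ideal of a point of `ℙⁿ`: all the polynomials in `x₀, …, xₙ` which
vanish on the line of `ℂⁿ⁺¹` given by the point. -/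
noncomputable def primeIdeal {n : ℕ} (p : ℙ ℂ (Fin (n + 1) → ℂ)) : Ideal (MvPolynomial (Fin (n + 1)) ℂ) where
  carrier := {F | ∀ w ∈ p.submodule, eval w F = 0}
  add_mem' := by
    intro F G hF hG w hw
    rw [map_add, hF w hw, hG w hw, add_zero]
  zero_mem' := by
    intro w _
    exact map_zero _
  smul_mem' := by
    intro c F hF w hw
    rw [smul_eq_mul, map_mul, hF w hw, mul_zero]

/-- The `m`-th symbolic power of the ideal of the points `P₁, …, P_r`. -/
noncomputable def symbolicPower {n r : ℕ} (m : ℕ) (P : Fin r → ℙ ℂ (Fin (n + 1) → ℂ)) :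
    Ideal (MvPolynomial (Fin (n + 1)) ℂ) :=
  ⨅ i, primeIdeal (P i) ^ m

/-- The Hilbert function `dim R_d - dim J_d` of `R / J`. -/
noncomputable def hilbert {n : ℕ} (J : Ideal (MvPolynomial (Fin (n + 1)) ℂ)) (d : ℕ) : ℤ :=
  (Module.finrank ℂ (homogeneousSubmodule (Fin (n + 1)) ℂ d) : ℤ) -
    Module.finrank ℂ (homogeneousSubmodule (Fin (n + 1)) ℂ d ⊓ Submodule.restrictScalars ℂ J :
      Submodule ℂ (MvPolynomial (Fin (n + 1)) ℂ))

/-- Zariski open subsets of `(ℙⁿ)^r`: those which are defined, in terms of arbitrary homogeneous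
coordinates of the points, by the condition that some polynomial of a given set does not vanish. -/
def IsZariskiOpen {n r : ℕ} (U : Set (Fin r → ℙ ℂ (Fin (n + 1) → ℂ))) : Prop :=
  ∃ S : Set (MvPolynomial (Fin r × Fin (n + 1)) ℂ),
    ∀ (v : Fin r → Fin (n + 1) → ℂ) (hv : ∀ i, v i ≠ 0),
      ((fun i => Projectivization.mk ℂ (v i) (hv i)) ∈ U ↔
        ∃ f ∈ S, eval (fun x : Fin r × Fin (n + 1) => v x.1 x.2) f ≠ 0)

/-- `h` is the value `H_{n,r,m}(d)` of the Hilbert function of `R / I^(m)` for `r` general points: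
the value is `h` for all the `r`-tuples of points in a nonempty Zariski open set. -/
def IsGeneralHilbertValue (n r m d : ℕ) (h : ℤ) : Prop :=
  ∃ U : Set (Fin r → ℙ ℂ (Fin (n + 1) → ℂ)), IsZariskiOpen U ∧ U.Nonempty ∧
    ∀ P ∈ U, hilbert (symbolicPower m P) d = h

lemma primeIdeal_mk {n : ℕ} (v : Fin (n + 1) → ℂ) (hv : v ≠ 0) :
    primeIdeal (Projectivization.mk ℂ v hv) = H350MF.pointIdeal v := by
  ext F
  change (∀ w ∈ (Projectivization.mk ℂ v hv).submodule, eval w F = 0) ↔
    ∀ t : ℂ, eval (t • v) F = 0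
  rw [Projectivization.submodule_mk]
  constructor
  · intro h t
    exact h _ (Submodule.smul_mem _ _ (Submodule.mem_span_singleton_self v))
  · intro h w hw
    obtain ⟨t, rfl⟩ := Submodule.mem_span_singleton.1 hw
    exact h t

lemma eval_scale {n r : ℕ} (t : Fin r → ℂ) (v : Fin r → Fin (n + 1) → ℂ)
    (G : MvPolynomial (Fin r × Fin (n + 1)) ℂ) :
    eval (fun x : Fin r × Fin (n + 1) => v x.1 x.2)
      (aeval (fun x : Fin r × Fin (n + 1) => C (t x.1) * X x) G)
      = eval (fun x : Fin r × Fin (n + 1) => (t x.1 • v x.1) x.2) G := by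
  induction G using MvPolynomial.induction_on with
  | C a => simp [algebraMap_eq]
  | add p q hp hq => rw [map_add, map_add, hp, hq, map_add]
  | mul_X p i hp =>
    rw [map_mul, map_mul, hp, map_mul, aeval_X, map_mul, eval_C, eval_X, eval_X]
    rfl

/-- For all `m ≤ d` and every `ε > 0` there is a `c > 0` such that for all `n ≥ 1` and all
`r ≤ c * n ^ (d - m + 1 - ε)` the value `H_{n,r,m}(d)` is
`∑_{j ≥ 1} (-1)^(j+1) * C(r, j) * C(n + d - j e, n)`, where `e = d - m + 1` and the sum is over the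
`j` with `j e ≤ d`. -/
theorem result (m d : ℕ) (hmd : m ≤ d) (ε : ℝ) (hε : 0 < ε) :
    ∃ c : ℝ, 0 < c ∧ ∀ n r : ℕ, 1 ≤ n →
      (r : ℝ) ≤ c * (n : ℝ) ^ ((d : ℝ) - (m : ℝ) + 1 - ε) →
      IsGeneralHilbertValue n r m d
        (∑ j ∈ Finset.Icc 1 (d / (d - m + 1)), (-1 : ℤ) ^ (j + 1) * (r.choose j : ℤ) *
          ((n + d - j * (d - m + 1)).choose n : ℤ)) := by
  obtain ⟨c, hc, H⟩ := H350MF.exists_poly hmd hε
  refine ⟨c, hc, fun n r hn hr => ?_⟩
  obtain ⟨Φ, hΦ0, hΦ⟩ := H n r hn hr
  refine ⟨{P | ∃ (v : Fin r → Fin (n + 1) → ℂ) (hv : ∀ i, v i ≠ 0),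
    (∀ i, Projectivization.mk ℂ (v i) (hv i) = P i) ∧
      eval (fun x : Fin r × Fin (n + 1) => v x.1 x.2) Φ ≠ 0}, ?_, ?_, ?_⟩
  · -- openness
    refine ⟨{f | ∃ t : Fin r → ℂ, (∀ i, t i ≠ 0) ∧
      f = aeval (fun x : Fin r × Fin (n + 1) => C (t x.1) * X x) Φ}, ?_⟩
    intro v hv
    constructor
    · rintro ⟨v', hv', h1, h2⟩
      have h3 : ∀ i, ∃ t : ℂ, t • v i = v' i := fun i =>
        (Projectivization.mk_eq_mk_iff' ℂ _ _ _ _).1 (h1 i)
      choose t ht using h3
      have ht0 : ∀ i, t i ≠ 0 := by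
        intro i h0
        apply hv' i
        rw [← ht i, h0, zero_smul]
      refine ⟨_, ⟨t, ht0, rfl⟩, ?_⟩
      rw [eval_scale]
      simpa only [ht] using h2
    · rintro ⟨f, ⟨t, ht0, rfl⟩, h2⟩
      rw [eval_scale] at h2
      refine ⟨fun i => t i • v i, fun i => smul_ne_zero (ht0 i) (hv i), fun i => ?_, h2⟩
      rw [Projectivization.mk_eq_mk_iff']
      exact ⟨t i, rfl⟩
  · -- nonempty
    have h1 : Φ * ∏ k : Fin r, X (k, (0 : Fin (n + 1))) ≠ 0 :=
      mul_ne_zero hΦ0 (Finset.prod_ne_zero_iff.2 fun k _ => X_ne_zero _)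
    obtain ⟨w, hw⟩ : ∃ w : Fin r × Fin (n + 1) → ℂ,
        eval w (Φ * ∏ k : Fin r, X (k, (0 : Fin (n + 1)))) ≠ 0 := by
      by_contra hcon
      push Not at hcon
      exact h1 (MvPolynomial.funext fun w => by rw [hcon w, map_zero])
    rw [map_mul, map_prod] at hw
    have hw1 := left_ne_zero_of_mul hw
    have hw2 := Finset.prod_ne_zero_iff.1 (right_ne_zero_of_mul hw)
    have hv : ∀ i : Fin r, (fun j => w (i, j)) ≠ 0 := by
      intro i h0
      have := hw2 i (Finset.mem_univ i)
      rw [eval_X] at this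
      exact this (congrFun h0 0)
    exact ⟨fun i => Projectivization.mk ℂ (fun j => w (i, j)) (hv i), fun i j => w (i, j), hv,
      fun i => rfl, hw1⟩
  · -- the value
    rintro P ⟨v, hv, h1, h2⟩
    have h3 : symbolicPower m P = ⨅ i, H350MF.pointIdeal (v i) ^ m := by
      unfold symbolicPower
      refine iInf_congr fun i => ?_
      rw [← h1 i, primeIdeal_mk]
    unfold hilbert
    rw [h3]
    exact hΦ v hv h2

end Pool.Agent.Results.MP_b56c98_ag.SparseRange
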